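import Pool.Agent.CSQ.Final

namespace Pool.Agent.Results.MP_8cc108_ag.Attained

open Pool.Agent.Hhelper20.CS Pool.Agent.CSQ

/-- The bound `β(n,d,k) - g + h¹(L) * binom(k,n)` for the local dimension of the moduli space of
coherent systems of type `(n,d,k)` with determinant `L`, for `k > n + 1`.

1. For all `a ≥ k - n` and `g ≥ max(n a, a + (k-1) a / (k-n))` there is a coherent system of type
`(n, 2 n a, k)` on a curve of genus `g`, stable for every `α > 0`, with `h¹(L) = g - n a` and local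
dimension `N = k (n (a+1) - k) - (n² - 1)`; the bound minus `N` equals
`g (binom(k,n) - k n + n² - 1) - n a (binom(k,n) - k)`.

2. The bound is attained, with arbitrarily large `h¹(L)`, at a coherent system which is stable for
every `α > 0`. -/
theorem result (n k : ℕ) (hn : 1 ≤ n) (hk : n + 1 < k) :
    (∀ a g : ℕ, k - n ≤ a → n * a ≤ g → a + (k - 1) * a / (k - n) ≤ g →
      ∃ (F : Type) (_ : Field F) (_ : Algebra ℂ F) (C : Curve F) (X : CohSys C ℂ n k) (N : ℕ),
        C.genus = g ∧ X.deg = 2 * n * a ∧ (∀ α : ℝ, 0 < α → X.IsStable α) ∧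
        X.h1det = g - n * a ∧ X.localDim = N ∧
        (N : ℤ) = k * (n * (a + 1) - k) - (n ^ 2 - 1) ∧
        beta g n (2 * n * a) k - g + X.h1det * k.choose n - N =
          g * (k.choose n - k * n + n ^ 2 - 1) - n * a * (k.choose n - k)) ∧
    (∀ δ : ℕ,
      ∃ (F : Type) (_ : Field F) (_ : Algebra ℂ F) (C : Curve F) (X : CohSys C ℂ n k) (N : ℕ),
        δ < X.h1det ∧ (∀ α : ℝ, 0 < α → X.IsStable α) ∧ X.localDim = N ∧
        (N : ℤ) = beta C.genus n X.deg k - C.genus + X.h1det * k.choose n) := by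
  refine ⟨fun a g hka hg1 hg2 => exists_sys' n k a g hn (by omega) hka hg1 hg2, ?_⟩
  · intro g₀
    obtain ⟨p, rfl⟩ := Nat.exists_eq_add_of_le (le_of_lt (lt_trans (Nat.lt_succ_self n) hk))
    rcases Nat.lt_or_ge 1 n with h2 | h1
    · obtain ⟨D, hD0, hD, hDle⟩ := exists_D (n := n) (p := p) h2 (by omega)
      obtain ⟨s, hs⟩ : ∃ s, s = (n - 1) * (p - 1) := ⟨_, rfl⟩
      have hs0 : 0 < s := by
        rw [hs]
        exact Nat.mul_pos (by omega) (by omega)
      rw [← hs] at hDle
      have hsz : (s : ℤ) = (n - 1) * (p - 1) := by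
        rw [hs]
        push_cast [Nat.cast_sub (show 1 ≤ n by omega), Nat.cast_sub (show 1 ≤ p by omega)]
        ring
      have hn0 : 0 < n := by omega
      have hp0 : 0 < p := by omega
      obtain ⟨a, ha⟩ : ∃ a, a = p * (D * (g₀ + 1)) := ⟨_, rfl⟩
      obtain ⟨g, hg⟩ : ∃ g, g = n * p * (D + s) * (g₀ + 1) := ⟨_, rfl⟩
      have hnp : 0 < n * p := Nat.mul_pos hn0 hp0
      have hna' : n * a + (g₀ + 1) ≤ g := by
        rw [ha, hg]
        have h3 : 1 * (g₀ + 1) ≤ n * p * s * (g₀ + 1) :=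
          Nat.mul_le_mul_right _ (Nat.mul_pos hnp hs0)
        have h4 : n * p * (D + s) * (g₀ + 1) =
            n * (p * (D * (g₀ + 1))) + n * p * s * (g₀ + 1) := by ring
        omega
      have hna : n * a < g := by omega
      have hka : n + p - n ≤ a := by
        rw [Nat.add_sub_cancel_left, ha]
        exact Nat.le_mul_of_pos_right _ (Nat.mul_pos hD0 (Nat.succ_pos _))
      have hg2 : a + (n + p - 1) * a / (n + p - n) ≤ g := by
        rw [Nat.add_sub_cancel_left]
        have h3 : (n + p - 1) * a / p = (n + p - 1) * (D * (g₀ + 1)) := by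
          rw [ha, show (n + p - 1) * (p * (D * (g₀ + 1))) = (n + p - 1) * (D * (g₀ + 1)) * p by ring]
          exact Nat.mul_div_cancel _ hp0
        rw [h3, ha, hg]
        calc p * (D * (g₀ + 1)) + (n + p - 1) * (D * (g₀ + 1)) =
            (p + (n + p - 1)) * D * (g₀ + 1) := by ring
          _ = (n + 2 * p - 1) * D * (g₀ + 1) := by
            congr 2
            omega
          _ ≤ _ := Nat.mul_le_mul_right _ hDle
      obtain ⟨F, i1, i2, C, X, N, e1, e2, e3, e4, e5, -, e7⟩ :=
        exists_sys' n (n + p) a g hn (by omega) hka hna.le hg2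
      refine ⟨F, i1, i2, C, X, N, ?_, e3, e5, ?_⟩
      · rw [e4]
        omega
      · rw [e1, e2]
        rw [hD] at e7 ⊢
        have h4 : (a : ℤ) = p * (D * (g₀ + 1)) := by rw [ha]; push_cast; ring
        have h5 : (g : ℤ) = n * p * (D + s) * (g₀ + 1) := by rw [hg]; push_cast; ring
        have h6 : (g : ℤ) * (((D + n * p + 1 : ℕ) : ℤ) - ((n + p : ℕ) : ℤ) * n + n ^ 2 - 1) -
            n * a * (((D + n * p + 1 : ℕ) : ℤ) - ((n + p : ℕ) : ℤ)) = 0 := by
          rw [h4, h5, hsz]
          push_cast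
          ring
        rw [h6] at e7
        linarith
    · have hn1 : n = 1 := le_antisymm h1 hn
      subst hn1
      obtain ⟨a, ha⟩ : ∃ a, a = p := ⟨_, rfl⟩
      obtain ⟨g, hg⟩ : ∃ g, g = g₀ + 2 * p + 1 := ⟨_, rfl⟩
      have hp0 : 0 < p := by omega
      have hg2 : p + (1 + p - 1) * p / (1 + p - 1) ≤ g := by
        rw [Nat.add_sub_cancel_left, Nat.mul_div_cancel _ hp0]
        omega
      obtain ⟨F, i1, i2, C, X, N, e1, e2, e3, e4, e5, -, e7⟩ :=
        exists_sys' 1 (1 + p) p g le_rfl (by omega) (by omega) (by omega) hg2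
      refine ⟨F, i1, i2, C, X, N, ?_, e3, e5, ?_⟩
      · rw [e4]
        omega
      · rw [e1, e2]
        rw [Nat.choose_one_right] at e7 ⊢
        push_cast at e7 ⊢
        linarith

end Pool.Agent.Results.MP_8cc108_ag.Attained
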