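import Pool.Agent.Hhelper20.CS.Hyp10
import Pool.Agent.Hhelper20.CS.Model

namespace Pool.Agent.Results.MP_8cc108_ag.Hyperelliptic

open Pool.Agent.Hhelper20.CS

/-- The conjectural lower bound for the local dimension of the moduli space of coherent systems
with fixed determinant fails on a hyperelliptic curve of every genus `g ≥ 7`: there is a coherent
system `X` of type `(2, 8, 5)`, stable for every `α > 0`, at which the moduli space of coherent
systems with determinant `det X` has dimension exactly `2`, while the conjectural bound is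
`3 g - 18 ≥ 3`. -/
theorem result (g : ℕ) (hg : 7 ≤ g) :
    ∃ (F : Type) (_ : Field F) (_ : Algebra ℂ F) (C : Curve F) (X : CohSys C ℂ 2 5),
      C.genus = g ∧ X.deg = 8 ∧ (∀ α : ℝ, 0 < α → X.IsStable α) ∧
      X.localDim = 2 ∧ 2 < beta g 2 8 5 - g + X.h1det * Nat.choose 5 2 := by
  have hm : Fact (0 < g + 1) := ⟨Nat.succ_pos g⟩
  let h := Hyp.model (g + 1)
  refine ⟨_, inferInstance, inferInstance, h.curve hm.out, h.sys hm.out, ?_, ?_, ?_, ?_, ?_⟩
  · rw [h.genus_curve]
    rfl
  · exact h.sys_deg (by omega)
  · intro α hα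
    exact h.sys_stable (by omega) hα
  · exact h.localDim_eq hm.out (by omega)
  · rw [h.sys_h1det, beta, show Nat.choose 5 2 = 10 from rfl]
    have e : ((g + 1 - 5 : ℕ) : ℤ) = g - 4 := by omega
    rw [e]
    have hg' : (7 : ℤ) ≤ g := by exact_mod_cast hg
    push_cast
    linarith

end Pool.Agent.Results.MP_8cc108_ag.Hyperelliptic
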